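import Pool.Agent.Lib.MP_0f8b55_lc.PTProofs
import Pool.Agent.Lib.MP_0f8b55_lc.Member

/-!
# MP_0f8b55_lc: for every `d ≥ 3` the problem `EDIM_d` is complete for `∃ℝ`

The proof reduces the existential theory of the reals to `EDIM_d`.  A formula is translated into
constraints `x + y = z`, `x * y = z` between real variables; these into equations
`w = m + s * t` between numbers in general position; these into a system of orthogonality relations
between pairwise distinct unit vectors of `ℝ^d` (von Staudt constructions in a frame of `d` vectors);
finally orthogonality of unit vectors `x, y` (that is distance `√2`) is expressed by completing the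
pair `{x, y}` to a `d`-dimensional cross-polytope with unit edges, whose `d` diagonals are
forced to be pairwise orthogonal of length `√2` as soon as antipodal vertices are distinct.
-/

open Pool.Agent.Lib.MP_0f8b55_lc in
/-- For every fixed `d ≥ 3`, deciding whether the Euclidean dimension of a graph is at most `d`
is complete for the existential theory of the reals. -/
theorem Pool.Agent.Results.MP_0f8b55_lc.EuclideanDimComplete.result (d : ℕ) (hd : 3 ≤ d) :
    ERComplete (EDIM d) :=
  ⟨inER_EDIM (by omega), fun _ hQ => hQ.trans
    (reduces_of_pt (pt_graphOf d) (fun φ => graphOf_iff hd φ))⟩
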